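import Pool.Agent.H89.MT.Targets

/-!
# MP_34b97f_an: module BCL
-/

open MeasureTheory ProbabilityTheory Filter Topology Finset
open scoped ENNReal

universe u

namespace Pool.Agent.H58.MT

open Pool.Agent.H89.MT

theorem scale_ge (k j : ℕ) : Real.exp (Real.exp ((j : ℝ) / (k + 1))) ≤ (scale k j : ℝ) :=
  Nat.le_ceil _

theorem scale_three (k j : ℕ) : 3 ≤ scale k j := by
  have h0 : (0 : ℝ) ≤ (j : ℝ) / (k + 1) := by positivity
  have h1 : Real.exp 1 ≤ Real.exp (Real.exp ((j : ℝ) / (k + 1))) :=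
    Real.exp_le_exp.2 (Real.one_le_exp h0)
  have h2 := Real.exp_one_gt_d9
  have h3 : (2 : ℝ) < (scale k j : ℝ) := by
    have := scale_ge k j
    linarith
  have h4 : 2 < scale k j := by exact_mod_cast h3
  omega

theorem scale_tendsto (k : ℕ) : Tendsto (scale k) atTop atTop := by
  rw [← tendsto_natCast_atTop_iff (R := ℝ)]
  refine tendsto_atTop_mono (f := fun j : ℕ => (j : ℝ) / (k + 1)) (fun j => ?_) ?_
  · have h0 := scale_ge k j
    have h1 := Real.add_one_le_exp ((j : ℝ) / (k + 1))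
    have h2 := Real.add_one_le_exp (Real.exp ((j : ℝ) / (k + 1)))
    show (j : ℝ) / (k + 1) ≤ (scale k j : ℝ)
    linarith
  · exact tendsto_natCast_atTop_atTop.atTop_div_const (by positivity)

theorem lavg_meas {Ω : Type u} [MeasurableSpace Ω] (x : Ω → ℕ → ℝ)
    (hx : ∀ n, Measurable fun ω => x ω n) (N : ℕ) : Measurable fun ω => lavg N (x ω) := by
  unfold lavg
  refine Measurable.div_const ?_ _
  exact Finset.measurable_sum _ fun n _ => (hx n).div_const _

theorem lavg_bdd {y : ℕ → ℝ} (hy : ∀ n, |y n| ≤ 1) (N : ℕ) :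
    |lavg N y| ≤ |(∑ n ∈ Icc 1 N, (1 : ℝ) / n) / Real.log N| := by
  unfold lavg
  rw [abs_div, abs_div]
  refine div_le_div_of_nonneg_right ?_ (abs_nonneg _)
  have h1 : |∑ n ∈ Icc 1 N, y n / n| ≤ ∑ n ∈ Icc 1 N, (1 : ℝ) / n := by
    refine (Finset.abs_sum_le_sum_abs _ _).trans (Finset.sum_le_sum fun n _ => ?_)
    rw [abs_div, Nat.abs_cast]
    exact div_le_div_of_nonneg_right (hy n) (Nat.cast_nonneg n)
  exact h1.trans (le_abs_self _)

theorem pf_BCL : T_BCL.{u} := by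
  intro Ω _ P _ x hxm hxb S δ hδ hS hmom k
  obtain ⟨r, hr1, hr2⟩ : ∃ r : ℕ, 1 ≤ r ∧ 4 ≤ (r : ℝ) * δ := by
    refine ⟨⌈4 / δ⌉₊ + 1, by omega, ?_⟩
    have h1 : 4 / δ ≤ (⌈4 / δ⌉₊ : ℝ) := Nat.le_ceil _
    have h2 : 4 / δ * δ = 4 := by field_simp
    push_cast
    nlinarith
  obtain ⟨C, hC⟩ := hmom r hr1
  set f : ℕ → Ω → ℝ := fun j ω => lavg (scale k j) (x ω) ^ (2 * r) with hf
  have hf0 : ∀ j ω, 0 ≤ f j ω := by
    intro j ω
    simp only [hf]
    rw [pow_mul]
    positivity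
  have hfm : ∀ j, Measurable (f j) := fun j => (lavg_meas x hxm _).pow_const _
  have hfi : ∀ j, Integrable (f j) P := by
    intro j
    refine Integrable.of_bound (C := |(∑ n ∈ Icc 1 (scale k j), (1 : ℝ) / n) /
      Real.log (scale k j)| ^ (2 * r)) (hfm j).aestronglyMeasurable ?_
    refine Eventually.of_forall fun ω => ?_
    rw [Real.norm_eq_abs]
    simp only [hf]
    rw [abs_pow]
    exact pow_le_pow_left₀ (abs_nonneg _) (lavg_bdd (hxb ω) _) _
  -- the bound of the moments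
  have hev : ∀ᶠ j : ℕ in atTop, ‖∫ ω, f j ω ∂P‖ ≤ |C| * (k + 1) ^ 2 * (1 / (j : ℝ) ^ 2) := by
    filter_upwards [(scale_tendsto k).eventually hS, eventually_ge_atTop (k + 1)] with j hj hjk
    have hj1 : (1 : ℝ) ≤ (j : ℝ) / (k + 1) := by
      rw [le_div_iff₀ (by positivity)]
      rw [one_mul]
      exact_mod_cast hjk
    have hj0 : 0 < (j : ℝ) / (k + 1) := by linarith
    have hlog1 : Real.exp ((j : ℝ) / (k + 1)) ≤ Real.log (scale k j) := by
      rw [Real.le_log_iff_exp_le (by have := scale_three k j; positivity)]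
      exact scale_ge k j
    have hlog2 : (j : ℝ) / (k + 1) ≤ Real.log (Real.log (scale k j)) := by
      rw [Real.le_log_iff_exp_le (lt_of_lt_of_le (Real.exp_pos _) hlog1)]
      exact hlog1
    have hlog3 : Real.log ((j : ℝ) / (k + 1)) ≤ Real.log (Real.log (Real.log (scale k j))) :=
      Real.log_le_log hj0 hlog2
    have hlog0 : 0 ≤ Real.log ((j : ℝ) / (k + 1)) := Real.log_nonneg hj1
    have h1 := hC (scale k j) (scale_three k j)
    have h2 : 2 * Real.log ((j : ℝ) / (k + 1)) ≤ (r : ℝ) / 2 * S (scale k j) := by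
      have h3 : δ * Real.log ((j : ℝ) / (k + 1)) ≤ S (scale k j) :=
        (mul_le_mul_of_nonneg_left hlog3 hδ.le).trans hj
      have h4 : (r : ℝ) / 2 * (δ * Real.log ((j : ℝ) / (k + 1))) ≤ (r : ℝ) / 2 * S (scale k j) :=
        mul_le_mul_of_nonneg_left h3 (by positivity)
      have h5 : (r : ℝ) / 2 * (δ * Real.log ((j : ℝ) / (k + 1))) =
          ((r : ℝ) * δ) / 2 * Real.log ((j : ℝ) / (k + 1)) := by ring
      nlinarith
    have h3 : Real.exp (-((r : ℝ) / 2 * S (scale k j))) ≤ (k + 1) ^ 2 * (1 / (j : ℝ) ^ 2) := by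
      have h4 : Real.exp (-((r : ℝ) / 2 * S (scale k j))) ≤
          Real.exp (-(2 * Real.log ((j : ℝ) / (k + 1)))) := Real.exp_le_exp.2 (by linarith)
      have h5 : Real.exp (-(2 * Real.log ((j : ℝ) / (k + 1)))) = (k + 1) ^ 2 * (1 / (j : ℝ) ^ 2) := by
        rw [Real.exp_neg, two_mul, Real.exp_add, Real.exp_log hj0]
        have hk : ((k : ℝ) + 1) ≠ 0 := by positivity
        have hjne : (j : ℝ) ≠ 0 := by
          rintro h
          rw [h, zero_div] at hj0
          exact lt_irrefl _ hj0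
        field_simp
      linarith
    rw [Real.norm_eq_abs, abs_of_nonneg (integral_nonneg (hf0 j))]
    have h6 : C * Real.exp (-((r : ℝ) / 2 * S (scale k j))) ≤
        |C| * ((k + 1) ^ 2 * (1 / (j : ℝ) ^ 2)) :=
      mul_le_mul (le_abs_self C) h3 (Real.exp_pos _).le (abs_nonneg C)
    rw [mul_assoc]
    exact h1.trans h6
  have hsum : Summable fun j => ∫ ω, f j ω ∂P := by
    refine Summable.of_norm_bounded_eventually_nat
      (g := fun j : ℕ => |C| * (k + 1) ^ 2 * (1 / (j : ℝ) ^ 2)) ?_ hev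
    exact (Real.summable_one_div_nat_pow.2 (by norm_num)).mul_left _
  have hlin : ∫⁻ ω, ∑' j, ENNReal.ofReal (f j ω) ∂P ≠ ⊤ := by
    rw [lintegral_tsum fun j => (hfm j).ennreal_ofReal.aemeasurable]
    have h1 : ∀ j, ∫⁻ ω, ENNReal.ofReal (f j ω) ∂P = ENNReal.ofReal (∫ ω, f j ω ∂P) := by
      intro j
      exact (ofReal_integral_eq_lintegral_ofReal (hfi j)
        (Eventually.of_forall (hf0 j))).symm
    simp_rw [h1]
    rw [← ENNReal.ofReal_tsum_of_nonneg (fun j => integral_nonneg (hf0 j)) hsum]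
    exact ENNReal.ofReal_ne_top
  have hae := ae_lt_top' (Measurable.ennreal_tsum fun j => (hfm j).ennreal_ofReal).aemeasurable
    hlin
  filter_upwards [hae] with ω hω
  have h1 := ENNReal.tendsto_atTop_zero_of_tsum_ne_top hω.ne
  have h2 : Tendsto (fun j => f j ω) atTop (𝓝 0) := by
    have h3 := (ENNReal.tendsto_toReal ENNReal.zero_ne_top).comp h1
    rw [ENNReal.toReal_zero] at h3
    refine h3.congr fun j => ?_
    simp only [Function.comp]
    exact ENNReal.toReal_ofReal (hf0 j ω)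
  rw [Metric.tendsto_atTop]
  intro ε hε
  have h3 : ∀ᶠ j in atTop, f j ω < ε ^ (2 * r) := h2.eventually (gt_mem_nhds (by positivity))
  obtain ⟨j0, hj0⟩ := eventually_atTop.1 h3
  refine ⟨j0, fun j hj => ?_⟩
  rw [Real.dist_0_eq_abs]
  have h4 := hj0 j hj
  have h5 : |lavg (scale k j) (x ω)| ^ (2 * r) < ε ^ (2 * r) := by
    rw [← abs_pow, abs_of_nonneg (hf0 j ω)]
    exact h4
  exact lt_of_pow_lt_pow_left₀ _ hε.le h5

end Pool.Agent.H58.MT
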